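import Pool.Agent.H59.PM.Red

/-!
# Measurable perfect matchings in Schreier graphs: the set of actions is `Σ^1_1`-complete

`Pool.Agent.H59.PM.Defs` contains all definitions. `Matched` is the set of all measure preserving actions `x` of the free
group on `γ_0, γ_1, …` on `([0,1], λ)` such that the Schreier graph of `x` has a measurable perfect matching.
-/

set_option autoImplicit false

namespace Pool.Agent.Results.MP_f28b16_lc.AnalyticComplete

open Pool.Agent.H59.PM

theorem result.{u} : SigmaComplete.{u} Matched := ⟨polish_act, analytic_matched, complete⟩

end Pool.Agent.Results.MP_f28b16_lc.AnalyticComplete
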